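import Pool.Agent.helper21.KBR.Defs

/-!
# Module E: first order asymptotics of the boundary distance function
-/

noncomputable section

namespace KBR

open Set MeasureTheory Filter Topology
open scoped ContDiff RealInnerProductSpace

variable {n : ℕ}

namespace RB

lemma coer (A : E n →L[ℝ] E n) (hpos : ∀ v, v ≠ 0 → 0 < ⟪A v, v⟫) (v0 : E n) (hv0 : ‖v0‖ = 1) :
    ∃ m : ℝ, 0 < m ∧ ∀ w, m * ‖w‖ ^ 2 ≤ ⟪A w, w⟫ := by
  have hc : IsCompact (Metric.sphere (0 : E n) 1) := isCompact_sphere 0 1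
  have hne : (Metric.sphere (0 : E n) 1).Nonempty := ⟨v0, by simp [hv0]⟩
  have hcont : ContinuousOn (fun w : E n => ⟪A w, w⟫) (Metric.sphere (0 : E n) 1) := by
    apply Continuous.continuousOn; fun_prop
  obtain ⟨w0, hw0, hmin⟩ := hc.exists_isMinOn hne hcont
  have hw0n : ‖w0‖ = 1 := by simpa using hw0
  have hw00 : w0 ≠ 0 := by
    intro h; rw [h] at hw0n; simp at hw0n
  refine ⟨⟪A w0, w0⟫, hpos w0 hw00, fun w => ?_⟩
  by_cases hw : w = 0
  · simp [hw]
  have hwn : 0 < ‖w‖ := norm_pos_iff.2 hw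
  have h1 : (‖w‖⁻¹ • w) ∈ Metric.sphere (0 : E n) 1 := by
    simp [norm_smul, hwn.ne']
  have h2 := isMinOn_iff.1 hmin _ h1
  simp only [map_smul, inner_smul_left, inner_smul_right, RCLike.conj_to_real] at h2
  have h3 : ‖w‖⁻¹ * (‖w‖⁻¹ * ⟪A w, w⟫) * ‖w‖ ^ 2 = ⟪A w, w⟫ := by
    field_simp
  calc ⟪A w0, w0⟫ * ‖w‖ ^ 2 ≤ ‖w‖⁻¹ * (‖w‖⁻¹ * ⟪A w, w⟫) * ‖w‖ ^ 2 := by
        gcongr
    _ = _ := h3

lemma near (G : E n → E n →L[ℝ] E n) (hG : Continuous G) (a : E n)
    (m : ℝ) (hm : 0 < m) (hco : ∀ w, m * ‖w‖ ^ 2 ≤ ⟪G a w, w⟫) (ε : ℝ) (hε : 0 < ε) :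
    ∃ r : ℝ, 0 < r ∧ ∀ x, ‖x - a‖ ≤ r → ∀ w, (1 - ε) * ⟪G a w, w⟫ ≤ ⟪G x w, w⟫ := by
  have h := Metric.continuousAt_iff.1 (hG.continuousAt (x := a)) (ε * m) (by positivity)
  obtain ⟨δ, hδ, h⟩ := h
  refine ⟨δ / 2, by positivity, fun x hx w => ?_⟩
  have h1 : ‖G x - G a‖ ≤ ε * m := by
    have := h (x := x) (by rw [dist_eq_norm]; linarith)
    rw [dist_eq_norm] at this
    exact this.le
  have h2 : |⟪(G x - G a) w, w⟫| ≤ ε * m * ‖w‖ ^ 2 := by
    calc |⟪(G x - G a) w, w⟫| ≤ ‖(G x - G a) w‖ * ‖w‖ := abs_real_inner_le_norm _ _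
      _ ≤ (‖G x - G a‖ * ‖w‖) * ‖w‖ := by
          gcongr
          exact (G x - G a).le_opNorm w
      _ ≤ (ε * m * ‖w‖) * ‖w‖ := by gcongr
      _ = _ := by ring
  have h3 : ⟪(G x - G a) w, w⟫ = ⟪G x w, w⟫ - ⟪G a w, w⟫ := by
    simp [inner_sub_left]
  have h4 := (abs_le.1 h2).1
  rw [h3] at h4
  have h5 := hco w
  nlinarith [mul_le_mul_of_nonneg_left h5 hε.le]

lemma cs (A : E n →L[ℝ] E n) (hs : ∀ u v, ⟪A u, v⟫ = ⟪A v, u⟫)
    (hpos : ∀ v, v ≠ 0 → 0 < ⟪A v, v⟫) (u w : E n) :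
    ⟪A u, w⟫ ≤ Real.sqrt ⟪A u, u⟫ * Real.sqrt ⟪A w, w⟫ := by
  have hnn : ∀ v, 0 ≤ ⟪A v, v⟫ := by
    intro v
    by_cases hv : v = 0
    · simp [hv]
    · exact (hpos v hv).le
  rw [← Real.sqrt_mul (hnn u)]
  apply Real.le_sqrt_of_sq_le
  by_cases hw : w = 0
  · simp [hw]
  have hC := hpos w hw
  have h := hnn (⟪A w, w⟫ • u - ⟪A u, w⟫ • w)
  simp only [map_sub, map_smul, inner_sub_left, inner_sub_right, inner_smul_left,
    inner_smul_right, RCLike.conj_to_real] at h
  rw [hs w u] at h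
  have h2 : 0 ≤ ⟪A w, w⟫ * (⟪A u, u⟫ * ⟪A w, w⟫ - ⟪A u, w⟫ ^ 2) := by
    nlinarith [h]
  have h3 := nonneg_of_mul_nonneg_right h2 hC
  linarith

lemma nrm_cont (G : E n → E n →L[ℝ] E n) (hG : Continuous G) :
    Continuous (fun q : E n × E n => nrm G q.1 q.2) := by
  unfold nrm
  have : Continuous (fun q : E n × E n => G q.1 q.2) := by
    fun_prop
  fun_prop

lemma nrm_smul (G : E n → E n →L[ℝ] E n) (x w : E n) (s : ℝ) (hs : 0 ≤ s) :
    nrm G x (s • w) = s * nrm G x w := by
  unfold nrm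
  simp only [map_smul, inner_smul_left, inner_smul_right, RCLike.conj_to_real]
  rw [← mul_assoc, Real.sqrt_mul (mul_self_nonneg s), Real.sqrt_mul_self hs]

lemma dw_cont {c : ℝ → E n} {x y : E n} (hc : IsPath c x y) :
    ContinuousOn (derivWithin c (Icc 0 1)) (Icc 0 1) :=
  hc.smooth.continuousOn_derivWithin (uniqueDiffOn_Icc zero_lt_one) le_rfl

lemma speed_cont (G : E n → E n →L[ℝ] E n) (hG : Continuous G) {c : ℝ → E n} {x y : E n}
    (hc : IsPath c x y) :
    ContinuousOn (fun t => nrm G (c t) (derivWithin c (Icc 0 1) t)) (Icc 0 1) := by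
  have h1 : ContinuousOn (fun t => (c t, derivWithin c (Icc 0 1) t)) (Icc 0 1) :=
    hc.smooth.continuousOn.prodMk (dw_cont hc)
  exact (nrm_cont G hG).comp_continuousOn h1

lemma len_nonneg (G : E n → E n →L[ℝ] E n) (c : ℝ → E n) : 0 ≤ len G c := by
  unfold len
  exact intervalIntegral.integral_nonneg (by norm_num) (fun t _ => Real.sqrt_nonneg _)

/-- length bound for an initial piece contained in the small ball -/
lemma piece (G : E n → E n →L[ℝ] E n) (hG : IsMetric G) (a : E n) (haM : a ∈ M n)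
    (κ : ℝ) (hκ : 0 ≤ κ) (r : ℝ)
    (hr : ∀ x, ‖x - a‖ ≤ r → ∀ w, κ * nrm G a w ≤ nrm G x w)
    {y : E n} {c : ℝ → E n} (hc : IsPath c a y) (t0 : ℝ) (ht0 : t0 ∈ Icc (0 : ℝ) 1)
    (hin : ∀ t ∈ Icc 0 t0, ‖c t - a‖ ≤ r) :
    κ * nrm G a (c t0 - a) ≤ len G c := by
  have hGc := hG.smooth.continuous
  set u := c t0 - a with hu
  have hsub : Icc 0 t0 ⊆ Icc (0 : ℝ) 1 := Icc_subset_Icc le_rfl ht0.2
  have hint1 : IntervalIntegrable (fun t => nrm G (c t) (derivWithin c (Icc 0 1) t)) volume 0 t0 :=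
    ((speed_cont G hGc hc).mono (by rw [uIcc_of_le ht0.1]; exact hsub)).intervalIntegrable
  have hint2 : IntervalIntegrable (fun t => nrm G (c t) (derivWithin c (Icc 0 1) t)) volume t0 1 :=
    ((speed_cont G hGc hc).mono (by
      rw [uIcc_of_le ht0.2]; exact Icc_subset_Icc ht0.1 le_rfl)).intervalIntegrable
  -- the initial piece is shorter
  have hlen : ∫ t in (0 : ℝ)..t0, nrm G (c t) (derivWithin c (Icc 0 1) t) ≤ len G c := by
    unfold len
    rw [← intervalIntegral.integral_add_adjacent_intervals hint1 hint2]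
    have : 0 ≤ ∫ t in t0..1, nrm G (c t) (derivWithin c (Icc 0 1) t) :=
      intervalIntegral.integral_nonneg ht0.2 (fun t _ => Real.sqrt_nonneg _)
    linarith
  refine le_trans ?_ hlen
  by_cases hN : nrm G a u = 0
  · rw [hN, mul_zero]
    exact intervalIntegral.integral_nonneg ht0.1 (fun t _ => Real.sqrt_nonneg _)
  have hNpos : 0 < nrm G a u := lt_of_le_of_ne (Real.sqrt_nonneg _) (Ne.symm hN)
  -- fundamental theorem of calculus
  have hftc : ∫ t in (0 : ℝ)..t0, ⟪G a u, derivWithin c (Icc 0 1) t⟫ = ⟪G a u, u⟫ := by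
    have hcont : ContinuousOn (fun t => ⟪G a u, c t⟫) (Icc 0 t0) :=
      (continuous_const.inner continuous_id).comp_continuousOn (hc.smooth.continuousOn.mono hsub)
    have hder : ∀ t ∈ Ioo 0 t0, HasDerivAt (fun t => ⟪G a u, c t⟫)
        ⟪G a u, derivWithin c (Icc 0 1) t⟫ t := by
      intro t ht
      have htm : t ∈ Icc (0 : ℝ) 1 := hsub ⟨ht.1.le, ht.2.le⟩
      have hnhds : Icc (0 : ℝ) 1 ∈ 𝓝 t := Icc_mem_nhds ht.1 (lt_of_lt_of_le ht.2 ht0.2)
      have hd : HasDerivAt c (derivWithin c (Icc 0 1) t) t := by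
        have := (hc.smooth.differentiableOn one_ne_zero t htm).hasDerivWithinAt
        exact this.hasDerivAt hnhds
      have := (hasDerivAt_const t (G a u)).inner ℝ hd
      simpa using this
    have hi : IntervalIntegrable (fun t => ⟪G a u, derivWithin c (Icc 0 1) t⟫) volume 0 t0 := by
      apply ContinuousOn.intervalIntegrable
      rw [uIcc_of_le ht0.1]
      exact (continuous_const.inner continuous_id).comp_continuousOn ((dw_cont hc).mono hsub)
    rw [intervalIntegral.integral_eq_sub_of_hasDerivAt_of_le ht0.1 hcont hder hi]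
    rw [hc.source, ← inner_sub_right]
  have hii : IntervalIntegrable (fun t => κ * ⟪G a u, derivWithin c (Icc 0 1) t⟫) volume 0 t0 := by
    apply ContinuousOn.intervalIntegrable
    rw [uIcc_of_le ht0.1]
    exact ((continuous_const.inner continuous_id).comp_continuousOn
      ((dw_cont hc).mono hsub)).const_smul κ
  have hmono : ∫ t in (0 : ℝ)..t0, κ * ⟪G a u, derivWithin c (Icc 0 1) t⟫ ≤
      ∫ t in (0 : ℝ)..t0, nrm G a u * nrm G (c t) (derivWithin c (Icc 0 1) t) := by
    apply intervalIntegral.integral_mono_on ht0.1 hii (hint1.const_mul _)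
    intro t ht
    have h1 := cs (G a) (hG.symm a haM) (hG.pos a haM) u (derivWithin c (Icc 0 1) t)
    have h2 := hr (c t) (hin t ht) (derivWithin c (Icc 0 1) t)
    calc κ * ⟪G a u, derivWithin c (Icc 0 1) t⟫
        ≤ κ * (nrm G a u * nrm G a (derivWithin c (Icc 0 1) t)) := by
          apply mul_le_mul_of_nonneg_left _ hκ
          exact h1
      _ = nrm G a u * (κ * nrm G a (derivWithin c (Icc 0 1) t)) := by ring
      _ ≤ _ := mul_le_mul_of_nonneg_left h2 hNpos.le
  rw [intervalIntegral.integral_const_mul, intervalIntegral.integral_const_mul, hftc] at hmono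
  have hsq : ⟪G a u, u⟫ = nrm G a u * nrm G a u := by
    unfold nrm
    rw [Real.mul_self_sqrt]
    by_cases h0 : u = 0
    · simp [h0]
    · exact (hG.pos a haM u h0).le
  rw [hsq] at hmono
  have : nrm G a u * (κ * nrm G a u) ≤ nrm G a u *
      ∫ t in (0 : ℝ)..t0, nrm G (c t) (derivWithin c (Icc 0 1) t) := by
    linarith
  exact le_of_mul_le_mul_left this hNpos

/-- all paths to a nearby point are long -/
lemma lower (G : E n → E n →L[ℝ] E n) (hG : IsMetric G) (a : E n) (haM : a ∈ M n)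
    (m : ℝ) (hco : ∀ w, m * ‖w‖ ^ 2 ≤ ⟪G a w, w⟫)
    (κ : ℝ) (hκ : 0 ≤ κ) (r : ℝ) (hr0 : 0 < r)
    (hr : ∀ x, ‖x - a‖ ≤ r → ∀ w, κ * nrm G a w ≤ nrm G x w)
    {y : E n} {c : ℝ → E n} (hc : IsPath c a y) (hy : nrm G a (y - a) ≤ Real.sqrt (m * r ^ 2)) :
    κ * nrm G a (y - a) ≤ len G c := by
  by_cases hin : ∀ t ∈ Icc (0 : ℝ) 1, ‖c t - a‖ ≤ r
  · have := piece G hG a haM κ hκ r hr hc 1 ⟨zero_le_one, le_rfl⟩ hin
    rwa [hc.target] at this
  · push Not at hin
    obtain ⟨t1, ht1, hbig⟩ := hin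
    set S := {t ∈ Icc (0 : ℝ) 1 | r ≤ ‖c t - a‖} with hS
    have hcc : ContinuousOn (fun t => ‖c t - a‖) (Icc (0 : ℝ) 1) :=
      (hc.smooth.continuousOn.sub continuousOn_const).norm
    have hSc : IsCompact S := by
      have hcl : IsClosed S := by
        have := hcc.preimage_isClosed_of_isClosed isClosed_Icc (isClosed_Ici (a := r))
        exact this
      exact isCompact_Icc.of_isClosed_subset hcl (fun t ht => ht.1)
    obtain ⟨t0, ht0, hleast⟩ := hSc.exists_isLeast ⟨t1, ht1, hbig.le⟩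
    have hlt : ∀ t ∈ Icc (0 : ℝ) 1, t < t0 → ‖c t - a‖ < r := by
      intro t ht htt
      by_contra hcon
      push Not at hcon
      exact absurd (hleast ⟨ht, hcon⟩) (not_le.2 htt)
    have ht0pos : 0 < t0 := by
      rcases eq_or_lt_of_le ht0.1.1 with h | h
      · exfalso
        have h2 := ht0.2
        rw [← h, hc.source] at h2
        simp at h2
        linarith
      · exact h
    -- at t0 the distance is at most r by continuity
    have hle0 : ‖c t0 - a‖ ≤ r := by
      have hcw : ContinuousWithinAt (fun t => ‖c t - a‖) (Ico 0 t0) t0 :=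
        (hcc t0 ht0.1).mono (fun t ht => ⟨ht.1, ht.2.le.trans ht0.1.2⟩)
      have hne : (𝓝[Ico 0 t0] t0).NeBot := by
        rw [← mem_closure_iff_nhdsWithin_neBot, closure_Ico ht0pos.ne]
        exact ⟨ht0pos.le, le_rfl⟩
      apply le_of_tendsto hcw
      filter_upwards [self_mem_nhdsWithin] with t ht
      exact (hlt t ⟨ht.1, ht.2.le.trans ht0.1.2⟩ ht.2).le
    have hp := piece G hG a haM κ hκ r hr hc t0 ht0.1 (by
      intro t ht
      rcases eq_or_lt_of_le ht.2 with h | h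
      · rw [h]; exact hle0
      · exact (hlt t ⟨ht.1, ht.2.trans ht0.1.2⟩ h).le)
    refine le_trans ?_ hp
    apply mul_le_mul_of_nonneg_left _ hκ
    refine hy.trans ?_
    unfold nrm
    apply Real.sqrt_le_sqrt
    refine le_trans ?_ (hco (c t0 - a))
    have hm0 : 0 ≤ m ∨ m < 0 := le_or_gt 0 m
    rcases hm0 with hm0 | hm0
    · apply mul_le_mul_of_nonneg_left _ hm0
      exact pow_le_pow_left₀ hr0.le ht0.2 2
    · have : ‖c t0 - a‖ = r := le_antisymm hle0 ht0.2
      rw [this]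

/-- the straight segment -/
lemma seg_isPath {a y : E n} (ha : a ∈ M n) (hy : y ∈ M n) :
    IsPath (fun t => a + t • (y - a)) a y := by
  refine ⟨?_, by simp, by simp, ?_⟩
  · apply ContDiff.contDiffOn
    fun_prop
  · intro t ht
    have hconv : Convex ℝ (M n) := convex_closedBall 0 1
    have := hconv ha hy (a := 1 - t) (b := t) (by linarith [ht.2]) ht.1 (by ring)
    convert this using 1
    rw [smul_sub, sub_smul, one_smul]
    abel

lemma seg_len (G : E n → E n →L[ℝ] E n) (hG : Continuous G) (a y : E n) (K : ℝ)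
    (hK : ∀ t ∈ Icc (0 : ℝ) 1, nrm G (a + t • (y - a)) (y - a) ≤ K) :
    len G (fun t => a + t • (y - a)) ≤ K := by
  unfold len
  have hd : ∀ t ∈ Icc (0 : ℝ) 1, derivWithin (fun t => a + t • (y - a)) (Icc 0 1) t = y - a := by
    intro t ht
    have h1 : HasDerivAt (fun t : ℝ => a + t • (y - a)) (y - a) t := by
      have := ((hasDerivAt_id t).smul_const (y - a)).const_add a
      simpa using this
    exact h1.hasDerivWithinAt.derivWithin (uniqueDiffOn_Icc zero_lt_one t ht)
  have hcongr : ∫ t in (0 : ℝ)..1, nrm G (a + t • (y - a))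
      (derivWithin (fun t => a + t • (y - a)) (Icc 0 1) t) =
      ∫ t in (0 : ℝ)..1, nrm G (a + t • (y - a)) (y - a) := by
    apply intervalIntegral.integral_congr
    intro t ht
    rw [uIcc_of_le zero_le_one] at ht
    simp only [hd t ht]
  rw [hcongr]
  have hcont : Continuous (fun t : ℝ => nrm G (a + t • (y - a)) (y - a)) :=
    (nrm_cont G hG).comp (by fun_prop : Continuous (fun t : ℝ => (a + t • (y - a), y - a)))
  calc ∫ t in (0 : ℝ)..1, nrm G (a + t • (y - a)) (y - a)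
      ≤ ∫ t in (0 : ℝ)..1, K := by
        apply intervalIntegral.integral_mono_on zero_le_one (hcont.intervalIntegrable _ _)
          intervalIntegrable_const
        exact hK
    _ = K := by simp

end RB

open RB in
/-- MODULE E: first order asymptotics of the boundary distance function. -/
theorem rdist_boundary (G : E n → E n →L[ℝ] E n) (hG : IsMetric G) (a : E n) (ha : a ∈ bM n)
    (v : E n) (hv : ‖v‖ = 1) (hav : ⟪a, v⟫ = 0) :
    Filter.Tendsto (fun s : ℝ => rdist G a (Real.cos s • a + Real.sin s • v) / s)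
      (nhdsWithin 0 (Ioi 0)) (nhds (nrm G a v)) := by
  have hGc : Continuous G := hG.smooth.continuous
  have han : ‖a‖ = 1 := by simpa [bM] using ha
  have haM : a ∈ M n := by simp [M, han]
  have hv0 : v ≠ 0 := by
    intro h; rw [h] at hv; simp at hv
  -- the endpoint
  set y : ℝ → E n := fun s => Real.cos s • a + Real.sin s • v with hy
  have hyn : ∀ s, ‖y s‖ = 1 := by
    intro s
    have h1 : ‖y s‖ ^ 2 = 1 := by
      rw [hy, ← real_inner_self_eq_norm_sq]
      simp only [inner_add_left, inner_add_right, inner_smul_left, inner_smul_right,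
        RCLike.conj_to_real, real_inner_self_eq_norm_sq, han, hv, real_inner_comm a v, hav]
      nlinarith [Real.sin_sq_add_cos_sq s]
    have h2 : 0 ≤ ‖y s‖ := norm_nonneg _
    nlinarith
  have hyM : ∀ s, y s ∈ M n := fun s => by simp [M, hyn s]
  have hy0 : y 0 = a := by simp [hy]
  have hyc : Continuous y := by
    rw [hy]; fun_prop
  have hyd : HasDerivAt y v 0 := by
    have h1 := ((Real.hasDerivAt_cos 0).smul_const a).add ((Real.hasDerivAt_sin 0).smul_const v)
    have h2 : -Real.sin 0 • a + Real.cos 0 • v = v := by simp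
    rw [h2] at h1
    exact h1
  -- difference quotient
  set w : ℝ → E n := fun s => s⁻¹ • (y s - a) with hw
  have hwt : Tendsto w (𝓝[>] 0) (𝓝 v) := by
    have h1 := hasDerivAt_iff_tendsto_slope.1 hyd
    have h2 : Tendsto (slope y 0) (𝓝[>] 0) (𝓝 v) :=
      h1.mono_left (nhdsWithin_mono _ (fun s hs => ne_of_gt hs))
    refine h2.congr (fun s => ?_)
    rw [slope_def_module, hy0, sub_zero]
  have hyt : Tendsto y (𝓝[>] 0) (𝓝 a) := by
    have := hyc.tendsto 0
    rw [hy0] at this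
    exact this.mono_left nhdsWithin_le_nhds
  have hsw : ∀ s : ℝ, 0 < s → y s - a = s • w s := by
    intro s hs
    simp only [hw]
    rw [smul_smul, mul_inv_cancel₀ hs.ne', one_smul]
  have hbdd : ∀ z, BddBelow {l | ∃ c, IsPath c a z ∧ l = len G c} := by
    intro z
    refine ⟨0, ?_⟩
    rintro l ⟨c, _, rfl⟩
    exact len_nonneg G c
  have hne : ∀ s, {l | ∃ c, IsPath c a (y s) ∧ l = len G c}.Nonempty :=
    fun s => ⟨_, _, seg_isPath haM (hyM s), rfl⟩
  obtain ⟨m, hm, hco⟩ := coer (G a) (hG.pos a haM) v hv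
  have hNv : 0 < nrm G a v := Real.sqrt_pos.2 (hG.pos a haM v hv0)
  rw [tendsto_order]
  constructor
  · -- lower bound
    intro b hb
    -- choose ε
    have hcontκ : Tendsto (fun ε : ℝ => Real.sqrt (1 - ε) * nrm G a v) (𝓝[>] 0)
        (𝓝 (Real.sqrt (1 - 0) * nrm G a v)) := by
      have : Continuous (fun ε : ℝ => Real.sqrt (1 - ε) * nrm G a v) := by fun_prop
      exact (this.tendsto 0).mono_left nhdsWithin_le_nhds
    rw [sub_zero, Real.sqrt_one, one_mul] at hcontκ
    have hev := (hcontκ.eventually (lt_mem_nhds hb)).and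
      ((self_mem_nhdsWithin : Ioi (0 : ℝ) ∈ 𝓝[>] 0))
    obtain ⟨ε, hε1, hε0⟩ := hev.exists
    have hε0 : 0 < ε := hε0
    obtain ⟨r, hr0, hr⟩ := near G hGc a m hm hco ε hε0
    set κ := Real.sqrt (1 - ε) with hκ
    have hr' : ∀ x, ‖x - a‖ ≤ r → ∀ w, κ * nrm G a w ≤ nrm G x w := by
      intro x hx w
      by_cases h1 : 0 ≤ 1 - ε
      · unfold nrm
        rw [hκ, ← Real.sqrt_mul h1]
        exact Real.sqrt_le_sqrt (hr x hx w)
      · rw [hκ, Real.sqrt_eq_zero_of_nonpos (by linarith), zero_mul]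
        exact Real.sqrt_nonneg _
    have hκ0 : 0 ≤ κ := Real.sqrt_nonneg _
    have hN0 : Tendsto (fun s => nrm G a (y s - a)) (𝓝[>] 0) (𝓝 0) := by
      have h1 : Continuous (fun z : E n => nrm G a (z - a)) :=
        (nrm_cont G hGc).comp (by fun_prop : Continuous (fun z : E n => (a, z - a)))
      have h2 := (h1.tendsto a).comp hyt
      have h3 : nrm G a (a - a) = 0 := by simp [nrm]
      rw [h3] at h2
      exact h2
    have hev1 : ∀ᶠ s in 𝓝[>] 0, nrm G a (y s - a) < Real.sqrt (m * r ^ 2) :=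
      hN0.eventually (gt_mem_nhds (Real.sqrt_pos.2 (by positivity)))
    have hNw : Tendsto (fun s => κ * nrm G a (w s)) (𝓝[>] 0) (𝓝 (κ * nrm G a v)) := by
      have h1 : Continuous (fun z : E n => κ * nrm G a z) :=
        continuous_const.mul
          ((nrm_cont G hGc).comp (by fun_prop : Continuous (fun z : E n => (a, z))))
      exact (h1.tendsto v).comp hwt
    filter_upwards [hev1, hNw.eventually (lt_mem_nhds hε1), self_mem_nhdsWithin] with s h1 h2 h3
    have hs : 0 < s := h3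
    rw [lt_div_iff₀ hs]
    have hlow : κ * nrm G a (y s - a) ≤ rdist G a (y s) := by
      apply le_csInf (hne s)
      rintro l ⟨c, hc, rfl⟩
      exact lower G hG a haM m hco κ hκ0 r hr0 hr' hc h1.le
    rw [hsw s hs, nrm_smul G a (w s) s hs.le] at hlow
    calc b * s < (κ * nrm G a (w s)) * s := by gcongr
      _ = κ * (s * nrm G a (w s)) := by ring
      _ ≤ _ := hlow
  · -- upper bound
    intro b hb
    obtain ⟨b', hb1, hb2⟩ := exists_between hb
    have hopen : ∀ᶠ q : E n × E n in 𝓝 (a, v), nrm G q.1 q.2 < b' :=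
      ((nrm_cont G hGc).tendsto (a, v)).eventually (gt_mem_nhds hb1)
    obtain ⟨δ, hδ, hball⟩ := Metric.eventually_nhds_iff_ball.1 hopen
    have hev1 : ∀ᶠ s in 𝓝[>] 0, dist (y s) a < δ := (Metric.tendsto_nhds.1 hyt) δ hδ
    have hev2 : ∀ᶠ s in 𝓝[>] 0, dist (w s) v < δ := (Metric.tendsto_nhds.1 hwt) δ hδ
    filter_upwards [hev1, hev2, self_mem_nhdsWithin] with s h1 h2 h3
    have hs : 0 < s := h3
    rw [div_lt_iff₀ hs]
    have hlen : len G (fun t => a + t • (y s - a)) ≤ s * b' := by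
      apply seg_len G hGc
      intro t ht
      have hxb : dist (a + t • (y s - a)) a < δ := by
        rw [dist_eq_norm] at h1 ⊢
        rw [add_sub_cancel_left, norm_smul, Real.norm_of_nonneg ht.1]
        calc t * ‖y s - a‖ ≤ 1 * ‖y s - a‖ := by
              gcongr
              exact ht.2
          _ < δ := by linarith
      have h4 : nrm G (a + t • (y s - a)) (w s) < b' := by
        apply hball (a + t • (y s - a), w s)
        rw [Metric.mem_ball, Prod.dist_eq]
        exact max_lt hxb h2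
      have h5 : nrm G (a + t • (y s - a)) (y s - a) =
          s * nrm G (a + t • (y s - a)) (w s) := by
        rw [← nrm_smul G _ (w s) s hs.le, ← hsw s hs]
      rw [h5]
      gcongr
    have hup : rdist G a (y s) ≤ s * b' := by
      refine le_trans (csInf_le (hbdd _) ⟨_, seg_isPath haM (hyM s), rfl⟩) hlen
    calc rdist G a (y s) ≤ s * b' := hup
      _ = b' * s := by ring
      _ < b * s := by gcongr

end KBR
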